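import Pool.Agent.Helper14.BK.HemiDefs

/-!
# MP_7aba51_co: from semilinear maps and subspaces to collineations and sets of points
-/

set_option autoImplicit false
set_option linter.unusedSectionVars false

open scoped LinearAlgebra.Projectivization Pointwise

namespace Pool.Agent.Helper14.HemiBK

universe u

section

variable {F : Type u} [Field F] [Fintype F] (g : (Fin 4 → F) ≃+ (Fin 4 → F)) (τ : F ≃+* F)
  (h : ∀ (c : F) (x : Fin 4 → F), g (c • x) = τ c • g x)

/-- the semilinear map -/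
noncomputable def semi : (Fin 4 → F) →ₛₗ[(τ : F →+* F)] (Fin 4 → F) where
  toFun := g
  map_add' := map_add g
  map_smul' := h

theorem map_inj : Function.Injective (Projectivization.map (semi g τ h) g.injective) := by
  intro P Q hPQ
  induction P using Projectivization.ind with
  | h v hv =>
    induction Q using Projectivization.ind with
    | h w hw =>
      rw [Projectivization.map_mk, Projectivization.map_mk, Projectivization.mk_eq_mk_iff'] at hPQ
      obtain ⟨a, ha⟩ := hPQ
      rw [Projectivization.mk_eq_mk_iff']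
      refine ⟨τ.symm a, g.injective ?_⟩
      rw [h, RingEquiv.apply_symm_apply]
      exact ha

/-- the collineation -/
noncomputable def perm : Equiv.Perm (ℙ F (Fin 4 → F)) :=
  Equiv.ofBijective _ (Finite.injective_iff_bijective.1 (map_inj g τ h))

theorem ne_zero {v : Fin 4 → F} (hv : v ≠ 0) : g v ≠ 0 := by
  intro h0
  exact hv (g.injective (by rw [h0, map_zero]))

theorem perm_mk {v : Fin 4 → F} (hv : v ≠ 0) :
    perm g τ h (Projectivization.mk F v hv) = Projectivization.mk F (g v) (ne_zero g hv) := rfl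

theorem it_ne_zero {v : Fin 4 → F} (hv : v ≠ 0) (k : ℕ) : g^[k] v ≠ 0 := by
  induction k with
  | zero => exact hv
  | succ k ih =>
    rw [Function.iterate_succ_apply']
    exact ne_zero g ih

theorem perm_pow {v : Fin 4 → F} (hv : v ≠ 0) (k : ℕ) :
    (perm g τ h ^ k) (Projectivization.mk F v hv) =
      Projectivization.mk F (g^[k] v) (it_ne_zero g hv k) := by
  induction k with
  | zero => rfl
  | succ k ih =>
    rw [pow_succ', Equiv.Perm.mul_apply, ih, perm_mk]
    simp only [Function.iterate_succ_apply']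

/-- the set of the points in a subspace -/
def pts (W : Submodule F (Fin 4 → F)) : Set (ℙ F (Fin 4 → F)) := {P | P.submodule ≤ W}

theorem mem_pts {W : Submodule F (Fin 4 → F)} {v : Fin 4 → F} (hv : v ≠ 0) :
    Projectivization.mk F v hv ∈ pts W ↔ v ∈ W := by
  show (Projectivization.mk F v hv).submodule ≤ W ↔ _
  rw [Projectivization.submodule_mk, Submodule.span_singleton_le_iff_mem]

theorem pts_inj : Function.Injective (pts (F := F)) := by
  intro W W' hW
  ext v
  rcases eq_or_ne v 0 with h0 | h0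
  · rw [h0]
    exact ⟨fun _ => W'.zero_mem, fun _ => W.zero_mem⟩
  · rw [← mem_pts h0, hW, mem_pts h0]

/-- the image of the points of a subspace -/
theorem image_pts {W W' : Submodule F (Fin 4 → F)}
    (hW : (W' : Set (Fin 4 → F)) = ⇑g '' (W : Set (Fin 4 → F))) :
    perm g τ h '' pts W = pts W' := by
  ext P
  induction P using Projectivization.ind with
  | h v hv =>
    rw [mem_pts]
    constructor
    · rintro ⟨Q, hQ, hQP⟩
      induction Q using Projectivization.ind with
      | h w hw =>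
        rw [mem_pts] at hQ
        rw [perm_mk, Projectivization.mk_eq_mk_iff'] at hQP
        obtain ⟨a, ha⟩ := hQP
        have h1 : g w ∈ W' := by
          rw [← SetLike.mem_coe, hW]
          exact ⟨w, hQ, rfl⟩
        have h2 : a ≠ 0 := by
          rintro rfl
          rw [zero_smul] at ha
          exact ne_zero g hw ha.symm
        have h3 : v = a⁻¹ • g w := by
          rw [← ha, smul_smul, inv_mul_cancel₀ h2, one_smul]
        rw [h3]
        exact W'.smul_mem _ h1
    · intro hv'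
      rw [← SetLike.mem_coe, hW] at hv'
      obtain ⟨w, hw, rfl⟩ := hv'
      have hw0 : w ≠ 0 := by
        rintro rfl
        exact hv (map_zero g)
      exact ⟨Projectivization.mk F w hw0, (mem_pts hw0).2 hw, rfl⟩

/-- the image of a line is a line -/
theorem line_image {ℓ : Set (ℙ F (Fin 4 → F))} (hl : IsLine F ℓ) :
    IsLine F (perm g τ h '' ℓ) := by
  obtain ⟨W, hW, rfl⟩ := hl
  have : RingHomSurjective (τ : F →+* F) := ⟨τ.surjective⟩
  have hc : ((W.map (semi g τ h) : Submodule F (Fin 4 → F)) : Set (Fin 4 → F)) =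
      ⇑g '' (W : Set (Fin 4 → F)) := by
    rw [Submodule.map_coe]
    rfl
  refine ⟨W.map (semi g τ h), ?_, image_pts g τ h hc⟩
  have h1 : Nat.card (W.map (semi g τ h) : Submodule F (Fin 4 → F)) = Nat.card W := by
    have e1 : Nat.card (W.map (semi g τ h) : Submodule F (Fin 4 → F)) =
        Set.ncard ((W.map (semi g τ h) : Submodule F (Fin 4 → F)) : Set (Fin 4 → F)) := rfl
    have e2 : Nat.card W = Set.ncard (W : Set (Fin 4 → F)) := rfl
    rw [e1, e2, hc, Set.ncard_image_of_injective _ g.injective]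
  rw [Module.natCard_eq_pow_finrank (K := F) (V := W),
    Module.natCard_eq_pow_finrank (K := F) (V := (W.map (semi g τ h) : Submodule F (Fin 4 → F)))] at h1
  have h2 : 2 ≤ Nat.card F := by
    rw [Nat.card_eq_fintype_card]
    exact Fintype.one_lt_card
  rw [hW] at h1
  exact Nat.pow_right_injective h2 h1

theorem line_pow {ℓ : Set (ℙ F (Fin 4 → F))} (hl : IsLine F ℓ) (k : ℕ) :
    IsLine F ((perm g τ h ^ k) '' ℓ) := by
  induction k with
  | zero => simpa using hl
  | succ k ih =>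
    rw [pow_succ', Equiv.Perm.coe_mul, Set.image_comp]
    exact line_image g τ h ih

end

theorem mem_surface {F : Type u} [Field F] [Fintype F] {q : ℕ} {v : Fin 4 → F} (hv : v ≠ 0) :
    Projectivization.mk F v hv ∈ surface F q ↔ ∑ i, v i ^ (q + 1) = 0 := by
  show (∀ x ∈ (Projectivization.mk F v hv).submodule, _ = _) ↔ _
  rw [Projectivization.submodule_mk]
  constructor
  · intro h
    have := h v (Submodule.mem_span_singleton_self v)
    rw [Fin.sum_univ_four]
    exact this
  · intro h x hx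
    obtain ⟨c, rfl⟩ := Submodule.mem_span_singleton.1 hx
    rw [Fin.sum_univ_four] at h
    simp only [Pi.smul_apply, smul_eq_mul, mul_pow]
    linear_combination c ^ (q + 1) * h

theorem bridge (F : Type u) [Field F] [Fintype F] (q : ℕ) (hq : q % 2 = 1)
    (S : Set (Submodule F (Fin 4 → F))) (g : (Fin 4 → F) ≃+ (Fin 4 → F)) (τ : F ≃+* F)
    (h1 : ∀ L ∈ S, Module.finrank F L = 2 ∧ ∀ x ∈ L, ∀ y ∈ L, ∑ i, x i * y i ^ q = 0)
    (h2 : ∀ P : Submodule F (Fin 4 → F), Module.finrank F P = 1 →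
      (∀ x ∈ P, ∑ i, x i ^ (q + 1) = 0) → Set.ncard {L | L ∈ S ∧ P ≤ L} = (q + 1) / 2)
    (h3 : ∀ (c : F) (x : Fin 4 → F), g (c • x) = τ c • g x)
    (h4 : ∀ x : Fin 4 → F, (∑ i, g x i ^ (q + 1) = 0 ↔ ∑ i, x i ^ (q + 1) = 0))
    (h5 : ∀ L ∈ S, ∃ L' ∈ S, (L' : Set (Fin 4 → F)) = ⇑g '' (L : Set (Fin 4 → F)))
    (h6 : ∀ v : Fin 4 → F, ∃ c : F, (⇑g)^[q ^ 2 - q + 1] v = c • v)
    (h7 : ∀ k : ℕ, 0 < k → k < q ^ 2 - q + 1 → ∃ v : Fin 4 → F, ∀ c : F, (⇑g)^[k] v ≠ c • v) :
    ∃ ℋ : Set (Set (ℙ F (Fin 4 → F))), IsHemisystem F q ℋ ∧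
      ∃ G : Subgroup (Equiv.Perm (ℙ F (Fin 4 → F))), G ≤ PGammaU F q ∧ IsCyclic G ∧
        Nat.card G = q ^ 2 - q + 1 ∧ ∀ σ ∈ G, (fun ℓ => σ '' ℓ) '' ℋ = ℋ := by
  obtain ⟨σ, hσ⟩ : ∃ σ, σ = perm g τ h3 := ⟨_, rfl⟩
  -- the order
  have hpow : σ ^ (q ^ 2 - q + 1) = 1 := by
    ext P
    induction P using Projectivization.ind with
    | h v hv =>
      rw [hσ, perm_pow, Equiv.Perm.one_apply, Projectivization.mk_eq_mk_iff']
      obtain ⟨c, hc⟩ := h6 v
      exact ⟨c, hc.symm⟩
  have hord : orderOf σ = q ^ 2 - q + 1 := by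
    rw [orderOf_eq_iff (by omega)]
    refine ⟨hpow, fun k hk hk0 hone => ?_⟩
    obtain ⟨v, hv⟩ := h7 k hk0 hk
    have hv0 : v ≠ 0 := by
      rintro rfl
      apply hv 1
      rw [smul_zero]
      exact Function.iterate_fixed (map_zero g) k
    have := congrArg (fun ρ : Equiv.Perm _ => ρ (Projectivization.mk F v hv0)) hone
    simp only [hσ, perm_pow, Equiv.Perm.one_apply] at this
    rw [Projectivization.mk_eq_mk_iff'] at this
    obtain ⟨c, hc⟩ := this
    exact hv c hc.symm
  -- the collineation belongs to the group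
  have hline : ∀ ℓ, IsLine F ℓ ↔ IsLine F (σ '' ℓ) := by
    intro ℓ
    constructor
    · intro hl
      rw [hσ]
      exact line_image g τ h3 hl
    · intro hl
      have e1 := line_pow g τ h3 hl (q ^ 2 - q)
      rw [← hσ, ← Set.image_comp, ← Equiv.Perm.coe_mul, ← pow_succ, hpow] at e1
      simpa using e1
  have hsurf : σ '' surface F q = surface F q := by
    have hmem : ∀ P, σ P ∈ surface F q ↔ P ∈ surface F q := by
      intro P
      induction P using Projectivization.ind with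
      | h v hv =>
        rw [hσ, perm_mk, mem_surface, mem_surface]
        exact h4 v
    ext P
    constructor
    · rintro ⟨Q, hQ, rfl⟩
      exact (hmem Q).2 hQ
    · intro hP
      refine ⟨σ.symm P, (hmem _).1 ?_, by simp⟩
      simpa using hP
  have hG : σ ∈ PGammaU F q := ⟨hline, hsurf⟩
  -- the hemisystem
  obtain ⟨ℋ, hℋ⟩ : ∃ ℋ : Set (Set (ℙ F (Fin 4 → F))), ℋ = pts '' S := ⟨_, rfl⟩
  have hhemi : IsHemisystem F q ℋ := by
    refine ⟨?_, ?_⟩
    · rintro ℓ hℓ
      rw [hℋ] at hℓ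
      obtain ⟨L, hL, rfl⟩ := hℓ
      refine ⟨⟨L, (h1 L hL).1, rfl⟩, ?_⟩
      intro P hP
      induction P using Projectivization.ind with
      | h v hv =>
        rw [mem_pts] at hP
        rw [mem_surface]
        have := (h1 L hL).2 v hP v hP
        rw [← this]
        refine Finset.sum_congr rfl fun i _ => ?_
        ring
    · intro P hP
      have e1 : {ℓ ∈ ℋ | P ∈ ℓ} = pts '' {L | L ∈ S ∧ P.submodule ≤ L} := by
        rw [hℋ]
        ext ℓ
        constructor
        · rintro ⟨⟨L, hL, rfl⟩, hPL⟩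
          exact ⟨L, ⟨hL, hPL⟩, rfl⟩
        · rintro ⟨L, ⟨hL, hPL⟩, rfl⟩
          exact ⟨⟨L, hL, rfl⟩, hPL⟩
      rw [e1, Set.ncard_image_of_injective _ pts_inj, h2 P.submodule P.finrank_submodule]
      · omega
      · intro x hx
        have := hP x hx
        rw [Fin.sum_univ_four]
        exact this
  -- invariance
  have hstep : ∀ ℓ ∈ ℋ, σ '' ℓ ∈ ℋ := by
    intro ℓ hℓ
    rw [hℋ] at hℓ ⊢
    obtain ⟨L, hL, rfl⟩ := hℓ
    obtain ⟨L', hL', hLL⟩ := h5 L hL
    exact ⟨L', hL', by rw [hσ, image_pts g τ h3 hLL]⟩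
  have hstepk : ∀ (k : ℕ), ∀ ℓ ∈ ℋ, (σ ^ k) '' ℓ ∈ ℋ := by
    intro k
    induction k with
    | zero =>
      intro ℓ hℓ
      simpa using hℓ
    | succ k ih =>
      intro ℓ hℓ
      rw [pow_succ', Equiv.Perm.coe_mul, Set.image_comp]
      exact hstep _ (ih ℓ hℓ)
  have hfix : (fun ℓ => σ '' ℓ) '' ℋ = ℋ := by
    refine Set.Subset.antisymm ?_ ?_
    · rintro _ ⟨ℓ, hℓ, rfl⟩
      exact hstep ℓ hℓ
    · intro ℓ hℓ
      refine ⟨(σ ^ (q ^ 2 - q)) '' ℓ, hstepk _ ℓ hℓ, ?_⟩
      show σ '' ((σ ^ (q ^ 2 - q)) '' ℓ) = ℓ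
      rw [← Set.image_comp, ← Equiv.Perm.coe_mul, ← pow_succ', hpow]
      simp
  refine ⟨ℋ, hhemi, Subgroup.zpowers σ, ?_, inferInstance, ?_, ?_⟩
  · rw [Subgroup.zpowers_le]
    exact hG
  · rw [Nat.card_zpowers, hord]
  · have hle : Subgroup.zpowers σ ≤ MulAction.stabilizer (Equiv.Perm (ℙ F (Fin 4 → F))) ℋ := by
      rw [Subgroup.zpowers_le]
      exact hfix
    intro ρ hρ
    exact hle hρ

end Pool.Agent.Helper14.HemiBK
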