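import Mathlib

/-!
# MP_7aba51_co: the Hermitian surface, its hemisystems and its automorphism group

The points of `PG(3, q^2)` are the elements of `ℙ F (Fin 4 → F)`, for a field `F` with `q^2` elements.
-/

set_option autoImplicit false

open scoped LinearAlgebra.Projectivization

namespace Pool.Agent.Helper14.HemiBK

universe u

variable (F : Type u) [Field F]

/-- The set `ℓ` of points of `PG(3, q^2)` is a line: it consists of the points in a
two-dimensional subspace. -/
def IsLine (ℓ : Set (ℙ F (Fin 4 → F))) : Prop :=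
  ∃ W : Submodule F (Fin 4 → F), Module.finrank F W = 2 ∧ ℓ = {P | P.submodule ≤ W}

/-- The Hermitian surface `H(3, q^2)`: the points which satisfy the equation
`X₀^(q+1) + X₁^(q+1) + X₂^(q+1) + X₃^(q+1) = 0`. -/
def surface (q : ℕ) : Set (ℙ F (Fin 4 → F)) :=
  {P | ∀ x ∈ P.submodule, x 0 ^ (q + 1) + x 1 ^ (q + 1) + x 2 ^ (q + 1) + x 3 ^ (q + 1) = 0}

/-- `ℋ` is a hemisystem of `H(3, q^2)`: a set of generators, that is, of lines of `PG(3, q^2)`
contained in the surface, such that every point of the surface lies on exactly `(q + 1) / 2`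
members of `ℋ`. -/
def IsHemisystem (q : ℕ) (ℋ : Set (Set (ℙ F (Fin 4 → F)))) : Prop :=
  (∀ ℓ ∈ ℋ, IsLine F ℓ ∧ ℓ ⊆ surface F q) ∧
    ∀ P ∈ surface F q, 2 * {ℓ ∈ ℋ | P ∈ ℓ}.ncard = q + 1

/-- `PΓU(4, q)`: the group of the collineations of `PG(3, q^2)` (the permutations of the points
which map lines to lines, in both directions) that map the surface onto itself. -/
def PGammaU (q : ℕ) : Subgroup (Equiv.Perm (ℙ F (Fin 4 → F))) where
  carrier := {σ | (∀ ℓ, IsLine F ℓ ↔ IsLine F (σ '' ℓ)) ∧ σ '' surface F q = surface F q}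
  mul_mem' := by
    rintro σ ρ ⟨h1, h2⟩ ⟨h3, h4⟩
    refine ⟨fun ℓ => ?_, ?_⟩
    · rw [Equiv.Perm.coe_mul, Set.image_comp, ← h1, ← h3]
    · rw [Equiv.Perm.coe_mul, Set.image_comp, h4, h2]
  one_mem' := by
    refine ⟨fun ℓ => ?_, ?_⟩ <;> simp
  inv_mem' := by
    rintro σ ⟨h1, h2⟩
    refine ⟨fun ℓ => ?_, ?_⟩
    · rw [h1 ((σ⁻¹ : Equiv.Perm _) '' ℓ), ← Set.image_comp, ← Equiv.Perm.coe_mul]
      simp
    · nth_rw 1 [← h2]
      rw [← Set.image_comp, ← Equiv.Perm.coe_mul]
      simp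

end Pool.Agent.Helper14.HemiBK
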