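import Pool.Agent.Helper14.BK.Hemi

/-!
# MP_7aba51_co: transport along an isomorphism of fields
-/

set_option autoImplicit false
set_option linter.unusedSectionVars false

namespace Pool.Agent.Helper14.HemiBK

universe u v

/-- The data of an invariant hemisystem, in terms of subspaces. -/
def Data (F : Type u) [Field F] (q : ℕ) : Prop :=
  ∃ (S : Set (Submodule F (Fin 4 → F))) (g : (Fin 4 → F) ≃+ (Fin 4 → F)) (τ : F ≃+* F),
      (∀ L ∈ S, Module.finrank F L = 2 ∧ ∀ x ∈ L, ∀ y ∈ L, ∑ i, x i * y i ^ q = 0) ∧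
      (∀ P : Submodule F (Fin 4 → F), Module.finrank F P = 1 →
          (∀ x ∈ P, ∑ i, x i ^ (q + 1) = 0) →
          Set.ncard {L | L ∈ S ∧ P ≤ L} = (q + 1) / 2) ∧
      (∀ (c : F) (x : Fin 4 → F), g (c • x) = τ c • g x) ∧
      (∀ x : Fin 4 → F, (∑ i, g x i ^ (q + 1) = 0 ↔ ∑ i, x i ^ (q + 1) = 0)) ∧
      (∀ L ∈ S, ∃ L' ∈ S, (L' : Set (Fin 4 → F)) = ⇑g '' (L : Set (Fin 4 → F))) ∧
      (∀ v : Fin 4 → F, ∃ c : F, (⇑g)^[q ^ 2 - q + 1] v = c • v) ∧
      (∀ k : ℕ, 0 < k → k < q ^ 2 - q + 1 → ∃ v : Fin 4 → F, ∀ c : F, (⇑g)^[k] v ≠ c • v)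

section

variable {K : Type v} {F : Type u} [Field K] [Field F] [Fintype K] [Fintype F] (φ : K ≃+* F)

/-- the map of vectors -/
noncomputable def vec : (Fin 4 → K) ≃+ (Fin 4 → F) :=
  AddEquiv.piCongrRight fun _ => φ.toAddEquiv

theorem vec_apply (x : Fin 4 → K) (i : Fin 4) : vec φ x i = φ (x i) := rfl

theorem vec_smul (c : K) (x : Fin 4 → K) : vec φ (c • x) = φ c • vec φ x := by
  funext i
  rw [vec_apply, Pi.smul_apply, smul_eq_mul, map_mul]
  rfl

/-- the semilinear map of vectors -/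
noncomputable def vecL : (Fin 4 → K) →ₛₗ[(φ : K →+* F)] (Fin 4 → F) where
  toFun := vec φ
  map_add' := map_add _
  map_smul' := vec_smul φ

local instance surj : RingHomSurjective (φ : K →+* F) := ⟨φ.surjective⟩

/-- the image of a subspace -/
noncomputable def im (W : Submodule K (Fin 4 → K)) : Submodule F (Fin 4 → F) := W.map (vecL φ)

theorem im_coe (W : Submodule K (Fin 4 → K)) :
    ((im φ W : Submodule F (Fin 4 → F)) : Set (Fin 4 → F)) = vec φ '' (W : Set (Fin 4 → K)) := by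
  unfold im
  rw [Submodule.map_coe]
  rfl

theorem mem_im {W : Submodule K (Fin 4 → K)} {x : Fin 4 → K} : vec φ x ∈ im φ W ↔ x ∈ W := by
  rw [← SetLike.mem_coe, im_coe]
  constructor
  · rintro ⟨y, hy, hxy⟩
    rw [(vec φ).injective hxy] at hy
    exact hy
  · intro h
    exact ⟨x, h, rfl⟩

theorem im_finrank (W : Submodule K (Fin 4 → K)) :
    Module.finrank F (im φ W) = Module.finrank K W := by
  have h1 : Nat.card (im φ W) = Nat.card W := by
    have e1 : Nat.card (im φ W) = Set.ncard ((im φ W : Submodule F (Fin 4 → F)) :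
      Set (Fin 4 → F)) := rfl
    have e2 : Nat.card W = Set.ncard (W : Set (Fin 4 → K)) := rfl
    rw [e1, e2, im_coe, Set.ncard_image_of_injective _ (vec φ).injective]
  rw [Module.natCard_eq_pow_finrank (K := K) (V := W),
    Module.natCard_eq_pow_finrank (K := F) (V := im φ W), Nat.card_congr φ.toEquiv] at h1
  have h2 : 2 ≤ Nat.card F := by
    rw [Nat.card_eq_fintype_card]
    exact Fintype.one_lt_card
  exact Nat.pow_right_injective h2 h1

theorem im_inj : Function.Injective (im φ) := by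
  intro W W' h
  ext x
  rw [← mem_im φ, h, mem_im φ]

/-- every subspace is an image -/
theorem im_surj (P : Submodule F (Fin 4 → F)) : ∃ W : Submodule K (Fin 4 → K), im φ W = P := by
  refine ⟨P.comap (vecL φ), ?_⟩
  ext y
  obtain ⟨x, rfl⟩ := (vec φ).surjective y
  rw [mem_im]
  rfl

theorem im_le {W W' : Submodule K (Fin 4 → K)} : im φ W ≤ im φ W' ↔ W ≤ W' := by
  constructor
  · intro h x hx
    exact (mem_im φ).1 (h ((mem_im φ).2 hx))
  · intro h y hy
    obtain ⟨x, rfl⟩ := (vec φ).surjective y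
    exact (mem_im φ).2 (h ((mem_im φ).1 hy))

theorem sum_vec (q : ℕ) (x : Fin 4 → K) :
    ∑ i, vec φ x i ^ (q + 1) = 0 ↔ ∑ i, x i ^ (q + 1) = 0 := by
  have : ∑ i, vec φ x i ^ (q + 1) = φ (∑ i, x i ^ (q + 1)) := by
    rw [map_sum]
    refine Finset.sum_congr rfl fun i _ => ?_
    rw [map_pow]
    rfl
  rw [this, map_eq_zero_iff φ φ.injective]

include φ in
/-- Transport of the data. -/
theorem transfer (q : ℕ) (h : Data K q) : Data F q := by
  obtain ⟨S, g, τ, h1, h2, h3, h4, h5, h6, h7⟩ := h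
  have hit : ∀ (k : ℕ) (x : Fin 4 → K),
      (⇑((vec φ).symm.trans (g.trans (vec φ))))^[k] (vec φ x) = vec φ (g^[k] x) := by
    intro k x
    induction k with
    | zero => rfl
    | succ k ih =>
      rw [Function.iterate_succ_apply', ih, Function.iterate_succ_apply']
      simp
  refine ⟨im φ '' S, (vec φ).symm.trans (g.trans (vec φ)), φ.symm.trans (τ.trans φ), ?_, ?_, ?_,
    ?_, ?_, ?_, ?_⟩
  · rintro _ ⟨L, hL, rfl⟩
    refine ⟨by rw [im_finrank, (h1 L hL).1], ?_⟩
    intro x hx y hy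
    obtain ⟨x, rfl⟩ := (vec φ).surjective x
    obtain ⟨y, rfl⟩ := (vec φ).surjective y
    have := (h1 L hL).2 x ((mem_im φ).1 hx) y ((mem_im φ).1 hy)
    have e : ∑ i, vec φ x i * vec φ y i ^ q = φ (∑ i, x i * y i ^ q) := by
      rw [map_sum]
      refine Finset.sum_congr rfl fun i _ => ?_
      rw [map_mul, map_pow]
      rfl
    rw [e, this, map_zero]
  · intro P' hP' hiso
    obtain ⟨P, rfl⟩ := im_surj φ P'
    rw [im_finrank] at hP'
    have e : {L | L ∈ im φ '' S ∧ im φ P ≤ L} = im φ '' {L | L ∈ S ∧ P ≤ L} := by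
      ext L'
      constructor
      · rintro ⟨⟨L, hL, rfl⟩, hle⟩
        exact ⟨L, ⟨hL, (im_le φ).1 hle⟩, rfl⟩
      · rintro ⟨L, ⟨hL, hle⟩, rfl⟩
        exact ⟨⟨L, hL, rfl⟩, (im_le φ).2 hle⟩
    rw [e, Set.ncard_image_of_injective _ (im_inj φ)]
    refine h2 P hP' fun x hx => ?_
    exact (sum_vec φ q x).1 (hiso _ ((mem_im φ).2 hx))
  · intro c x
    obtain ⟨c, rfl⟩ := φ.surjective c
    obtain ⟨x, rfl⟩ := (vec φ).surjective x
    rw [← vec_smul]
    simp only [AddEquiv.trans_apply, AddEquiv.symm_apply_apply, RingEquiv.trans_apply,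
      RingEquiv.symm_apply_apply]
    rw [h3, vec_smul]
  · intro x
    obtain ⟨x, rfl⟩ := (vec φ).surjective x
    simp only [AddEquiv.trans_apply, AddEquiv.symm_apply_apply]
    rw [sum_vec, sum_vec, h4]
  · rintro _ ⟨L, hL, rfl⟩
    obtain ⟨L', hL', hLL⟩ := h5 L hL
    refine ⟨im φ L', ⟨L', hL', rfl⟩, ?_⟩
    rw [im_coe, im_coe, hLL, ← Set.image_comp, ← Set.image_comp]
    congr 1
    funext x
    simp
  · intro v
    obtain ⟨v, rfl⟩ := (vec φ).surjective v
    obtain ⟨c, hc⟩ := h6 v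
    exact ⟨φ c, by rw [hit, hc, vec_smul]⟩
  · intro k hk hk'
    obtain ⟨v, hv⟩ := h7 k hk hk'
    refine ⟨vec φ v, fun c hc => ?_⟩
    obtain ⟨c, rfl⟩ := φ.surjective c
    rw [hit, ← vec_smul] at hc
    exact hv c ((vec φ).injective hc)

end

/-- From fields in `Type` to fields in every universe. -/
theorem data_univ
    (h : ∀ (K : Type) [Field K] [Fintype K] (q : ℕ), Fintype.card K = q ^ 2 → q % 4 = 1 →
      (q % 3 = 0 ∨ q % 3 = 2) → Data K q)
    (F : Type u) [Field F] [Fintype F] (q : ℕ) (hF : Fintype.card F = q ^ 2) (h4 : q % 4 = 1)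
    (h3 : q % 3 = 0 ∨ q % 3 = 2) : Data F q := by
  classical
  have e : Shrink.{0} F ≃+* F := (equivShrink.{0} F).symm.ringEquiv
  have : Fintype (Shrink.{0} F) := Fintype.ofEquiv F e.symm.toEquiv
  exact transfer e q (h (Shrink.{0} F) q (by rw [Fintype.card_congr e.toEquiv, hF]) h4 h3)

end Pool.Agent.Helper14.HemiBK
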